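import Pool.Agent.H6.G9.Targets

/-! # Row LCF of the board g9_modules (MP_c59857_nt): lifts in clusters -/

set_option autoImplicit false

namespace Pool.Agent.H19.G9

open Pool.Agent.H6.N4D Pool.Agent.H6.G9

/-- frequencies at distance less than `η` modulo `1 / q` -/
def Gr (q k : ℕ) (η : ℝ) (b : ℕ → ℝ) : SimpleGraph (Fin k) where
  Adj l l' := l ≠ l' ∧ ∃ t : ℤ, nd (b l - b l' - (t : ℝ) / q) < η
  symm := ⟨by
    rintro l l' ⟨h1, t, h2⟩
    refine ⟨h1.symm, -t, ?_⟩
    rw [← nd_neg]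
    have e1 : -(b l' - b l - ((-t : ℤ) : ℝ) / q) = b l - b l' - (t : ℝ) / q := by
      push_cast; ring
    rw [e1]; exact h2⟩
  loopless := ⟨fun _ h => h.1 rfl⟩

theorem walk_lift {q k : ℕ} {η : ℝ} {b : ℕ → ℝ} {u v : Fin k} (p : (Gr q k η b).Walk u v) :
    ∃ t : ℤ, nd (b v + (t : ℝ) / q - b u) ≤ p.length * η := by
  induction p with
  | nil =>
    refine ⟨0, ?_⟩
    simp only [Int.cast_zero, zero_div, add_zero, sub_self, SimpleGraph.Walk.length_nil,
      Nat.cast_zero, zero_mul]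
    exact (nd_le_abs 0).trans (by simp)
  | @cons u w v h p ih =>
    obtain ⟨t', ht'⟩ := ih
    obtain ⟨-, t, ht⟩ := h
    refine ⟨t' + t, ?_⟩
    have e1 : b v + ((t' + t : ℤ) : ℝ) / q - b u =
        (b v + (t' : ℝ) / q - b w) + -(b u - b w - (t : ℝ) / q) := by
      push_cast; ring
    rw [e1, SimpleGraph.Walk.length_cons]
    refine (nd_add_le _ _).trans ?_
    rw [nd_neg]
    push_cast
    linarith

theorem reach_lift {q k : ℕ} {η : ℝ} (hη : 0 < η) {b : ℕ → ℝ} {u v : Fin k}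
    (h : (Gr q k η b).Reachable u v) : ∃ t : ℤ, nd (b v + (t : ℝ) / q - b u) ≤ k * η := by
  classical
  obtain ⟨p, hp⟩ := h.exists_isPath
  obtain ⟨t, ht⟩ := walk_lift p
  refine ⟨t, ht.trans (mul_le_mul_of_nonneg_right ?_ hη.le)⟩
  have h1 := hp.length_lt
  rw [Fintype.card_fin] at h1
  exact_mod_cast h1.le

theorem nd_sub_div_dvd {q : ℕ} (hq : 1 ≤ q) {t : ℤ} (h : (q : ℤ) ∣ t) (x : ℝ) :
    nd (x - (t : ℝ) / q) = nd x := by
  obtain ⟨s, hs⟩ := h
  have hq0 : (q : ℝ) ≠ 0 := by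
    have : (0 : ℝ) < q := by exact_mod_cast hq
    exact this.ne'
  have e1 : (t : ℝ) / q = (s : ℝ) := by
    rw [hs]; push_cast; field_simp
  rw [e1, nd_sub_int]

theorem pf_LCF : T_LCF := by
  classical
  intro q k r η δ b c a hq hη hδ _ hc ha
  -- the anchor of a component
  have hcomp : ∀ C : (Gr q k η b).ConnectedComponent, ∃ (l₀ : Fin k) (s₀ : ℤ) (f : ℕ),
      (Gr q k η b).connectedComponentMk l₀ = C ∧
      ((f < r ∧ nd (b l₀ + (s₀ : ℝ) / q - a f) < η) ∨
        ((∀ l : Fin k, (Gr q k η b).connectedComponentMk l = C → ∀ i < r, ∀ t : ℤ,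
          η ≤ nd (b l - a i - (t : ℝ) / q)) ∧ f = r + l₀ ∧
          nd (b l₀ + (s₀ : ℝ) / q - c l₀) ≤ δ)) := by
    intro C
    by_cases h : ∃ l : Fin k, (Gr q k η b).connectedComponentMk l = C ∧ ∃ i < r, ∃ t : ℤ,
        nd (b l - a i - (t : ℝ) / q) < η
    · obtain ⟨l, hl, i, hi, t, ht⟩ := h
      refine ⟨l, -t, i, hl, Or.inl ⟨hi, ?_⟩⟩
      have e1 : b l + ((-t : ℤ) : ℝ) / q - a i = b l - a i - (t : ℝ) / q := by push_cast; ring
      rw [e1]; exact ht
    · push Not at h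
      obtain ⟨l, hl⟩ := C.exists_rep
      obtain ⟨s, hs⟩ := hc l l.2
      refine ⟨l, s, r + l, hl, Or.inr ⟨fun l' hl' i hi t => h l' hl' i hi t, rfl, ?_⟩⟩
      rw [← nd_neg]
      have e1 : -(b l + (s : ℝ) / q - c l) = c l - b l - (s : ℝ) / q := by ring
      rw [e1]; exact hs
  choose l₀ s₀ f h₀ h₁ using hcomp
  have hlift : ∀ l : Fin k, ∃ t : ℤ, nd (b l + (t : ℝ) / q -
      b (l₀ ((Gr q k η b).connectedComponentMk l))) ≤ k * η := by
    intro l
    exact reach_lift hη (SimpleGraph.ConnectedComponent.exact (h₀ _))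
  choose t ht using hlift
  -- the lifts
  obtain ⟨sl, hsl⟩ : ∃ sl : Fin k → ℤ, sl = fun l =>
    t l + s₀ ((Gr q k η b).connectedComponentMk l) := ⟨_, rfl⟩
  have hroot : ∀ l : Fin k, nd (b l + (sl l : ℝ) / q -
      (b (l₀ ((Gr q k η b).connectedComponentMk l)) +
        (s₀ ((Gr q k η b).connectedComponentMk l) : ℝ) / q)) ≤ k * η := by
    intro l
    have e1 : b l + (sl l : ℝ) / q - (b (l₀ ((Gr q k η b).connectedComponentMk l)) +
        (s₀ ((Gr q k η b).connectedComponentMk l) : ℝ) / q) =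
        b l + (t l : ℝ) / q - b (l₀ ((Gr q k η b).connectedComponentMk l)) := by
      rw [hsl]; push_cast; ring
    rw [e1]; exact ht l
  refine ⟨fun l => if h : l < k then b l + (sl ⟨l, h⟩ : ℝ) / q else 0,
    fun l => if h : l < k then sl ⟨l, h⟩ else 0,
    fun l => if h : l < k then f ((Gr q k η b).connectedComponentMk ⟨l, h⟩) else 0,
    ?_, ?_, ?_, ?_⟩
  · intro l hl
    simp only [dif_pos hl]
  · intro l hl
    simp only [dif_pos hl]
    have h2 := hroot ⟨l, hl⟩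
    rcases h₁ ((Gr q k η b).connectedComponentMk ⟨l, hl⟩) with ⟨h3, h4⟩ | ⟨-, h3, h4⟩
    · refine Or.inl ⟨h3, (nd_tri _ (b (l₀ ((Gr q k η b).connectedComponentMk ⟨l, hl⟩)) +
          (s₀ ((Gr q k η b).connectedComponentMk ⟨l, hl⟩) : ℝ) / q) _).trans ?_⟩
      linarith
    · rw [h3]
      refine Or.inr ⟨Nat.le_add_right _ _, ?_, ?_⟩
      · have := (l₀ ((Gr q k η b).connectedComponentMk ⟨l, hl⟩)).2
        omega
      · rw [Nat.add_sub_cancel_left]
        refine (nd_tri _ (b (l₀ ((Gr q k η b).connectedComponentMk ⟨l, hl⟩)) +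
          (s₀ ((Gr q k η b).connectedComponentMk ⟨l, hl⟩) : ℝ) / q) _).trans ?_
        linarith
  · intro l hl l' hl'
    simp only [dif_pos hl, dif_pos hl']
    by_cases hcc : (Gr q k η b).connectedComponentMk ⟨l, hl⟩ =
        (Gr q k η b).connectedComponentMk ⟨l', hl'⟩
    · left
      have h2 := hroot ⟨l, hl⟩
      have h3 := hroot ⟨l', hl'⟩
      rw [← hcc, nd_sub_comm] at h3
      refine (nd_tri _ (b (l₀ ((Gr q k η b).connectedComponentMk ⟨l, hl⟩)) +
          (s₀ ((Gr q k η b).connectedComponentMk ⟨l, hl⟩) : ℝ) / q) _).trans ?_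
      linarith
    · right
      intro t'
      by_contra hcon
      push Not at hcon
      apply hcc
      apply SimpleGraph.ConnectedComponent.sound
      refine SimpleGraph.Adj.reachable ⟨?_, t' - sl ⟨l, hl⟩ + sl ⟨l', hl'⟩, ?_⟩
      · intro he
        exact hcc (by rw [he])
      · have e1 : b l - b l' - ((t' - sl ⟨l, hl⟩ + sl ⟨l', hl'⟩ : ℤ) : ℝ) / q =
            b l + (sl ⟨l, hl⟩ : ℝ) / q - (b l' + (sl ⟨l', hl'⟩ : ℝ) / q) - (t' : ℝ) / q := by
          push_cast; ring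
        show nd (b l - b l' - ((t' - sl ⟨l, hl⟩ + sl ⟨l', hl'⟩ : ℤ) : ℝ) / q) < η
        rw [e1]; exact hcon
  · intro l hl i hi
    simp only [dif_pos hl]
    by_cases hfar : ∀ t : ℤ, η ≤ nd (b l + (sl ⟨l, hl⟩ : ℝ) / q - a i - (t : ℝ) / q)
    · exact Or.inr hfar
    · left
      push Not at hfar
      obtain ⟨t', ht'⟩ := hfar
      have h2 := hroot ⟨l, hl⟩
      rcases h₁ ((Gr q k η b).connectedComponentMk ⟨l, hl⟩) with ⟨h3, h4⟩ | ⟨h3, -, -⟩
      · have h5 : nd (b l + (sl ⟨l, hl⟩ : ℝ) / q -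
            a (f ((Gr q k η b).connectedComponentMk ⟨l, hl⟩))) ≤ (k + 1) * η := by
          refine (nd_tri _ (b (l₀ ((Gr q k η b).connectedComponentMk ⟨l, hl⟩)) +
            (s₀ ((Gr q k η b).connectedComponentMk ⟨l, hl⟩) : ℝ) / q) _).trans ?_
          linarith
        have h6 : nd (a (f ((Gr q k η b).connectedComponentMk ⟨l, hl⟩)) - a i - (t' : ℝ) / q) ≤
            (k + 1) * η + η := by
          have e1 : a (f ((Gr q k η b).connectedComponentMk ⟨l, hl⟩)) - a i - (t' : ℝ) / q =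
              (a (f ((Gr q k η b).connectedComponentMk ⟨l, hl⟩)) -
                (b l + (sl ⟨l, hl⟩ : ℝ) / q)) +
              (b l + (sl ⟨l, hl⟩ : ℝ) / q - a i - (t' : ℝ) / q) := by ring
          rw [e1]
          refine (nd_add_le _ _).trans ?_
          rw [nd_sub_comm]
          linarith
        have hdvd : (q : ℤ) ∣ t' := by
          by_contra hnd
          have h7 := ha _ h3 i hi t' hnd
          have h8 : 0 ≤ (k : ℝ) * η := by positivity
          linarith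
        rw [nd_sub_div_dvd hq hdvd] at ht'
        have h8 : 0 ≤ (k : ℝ) * η := by positivity
        linarith
      · exfalso
        have h9 := h3 ⟨l, hl⟩ rfl i hi (t' - sl ⟨l, hl⟩)
        have e1 : b ((⟨l, hl⟩ : Fin k) : ℕ) - a i - ((t' - sl ⟨l, hl⟩ : ℤ) : ℝ) / q =
            b l + (sl ⟨l, hl⟩ : ℝ) / q - a i - (t' : ℝ) / q := by
          push_cast; ring
        rw [e1] at h9
        linarith

end Pool.Agent.H19.G9
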